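import Pool.Agent.helper55.FPZ.SpecZ

set_option autoImplicit false

namespace Pool.Agent.FPZ

open Matrix Polynomial Pool.Agent.PL Pool.Agent.X4

/-- The derivation of the matrix of a product, the second factor is constant. -/
theorem KC_map {K : Type} [Field K] [CharZero K] {N : ℕ} (δ : Derivation ℚ K K)
    (c G : Matrix (Fin N) (Fin N) K) (h : ∀ i j, δ (G i j) = 0) :
    ((c * G).map fun x => δ x) = (c.map fun x => δ x) * G := by
  ext i j
  rw [Matrix.map_apply, Matrix.mul_apply, Matrix.mul_apply, map_sum]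
  refine Finset.sum_congr rfl fun k _ => ?_
  rw [Derivation.leibniz, h, smul_zero, zero_add, Matrix.map_apply, smul_eq_mul, mul_comm]

/-- Base change of a rational matrix. -/
theorem KC_cst {K : Type} [Field K] [CharZero K] {N : ℕ} (τ : QB →+* K)
    (Y : Matrix (Fin N) (Fin N) ℚ) : (cst QB Y).map τ = cst K Y := by
  ext i j
  simp [cst]

/-- Base change of a derivation. -/
theorem KC_tu {K : Type} [Field K] [CharZero K] {N m : ℕ} (τ : QB →+* K)
    (Z : Matrix (Fin N) (Fin N) QB) (y : Tn N m QB) :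
    der (Z.map τ) m (tu τ y) = tu τ (der Z m y) := by
  funext I
  simp only [der, tu, map_sum, map_mul, Matrix.map_apply]

theorem KC_der0 {R : Type} [CommRing R] {N m : ℕ} (t : Tn N m R) :
    der (0 : Matrix (Fin N) (Fin N) R) m t = 0 := by
  funext I
  simp [der]

theorem KC (hKA : KA_stmt) (hKB : KB_stmt) (hDD : DD_stmt) (hBX : BX_stmt) (hDL : DL_stmt)
    (hDC : DC_stmt) (hTP : TP_stmt) : KC_stmt := by
  intro F _ _ N E D hcont T hT e hb G hG K _ _ τ c hc m y a hGI hW δ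
  obtain ⟨hcu, hrel⟩ := hc
  obtain ⟨hGu, hdia⟩ := hG
  have hcd : IsUnit c.det := (Matrix.isUnit_iff_isUnit_det _).1 hcu
  have hGd : IsUnit G.det := (Matrix.isUnit_iff_isUnit_det _).1 hGu
  have hcc' : c * c⁻¹ = 1 := Matrix.mul_nonsing_inv _ hcd
  have hc'c : c⁻¹ * c = 1 := Matrix.nonsing_inv_mul _ hcd
  have hGG' : G * G⁻¹ = 1 := Matrix.mul_nonsing_inv _ hGd
  have hG'G : G⁻¹ * G = 1 := Matrix.nonsing_inv_mul _ hGd
  have hmap1 : ((1 : Matrix (Fin N) (Fin N) QB).map τ) = 1 :=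
    Matrix.map_one τ (map_zero τ) (map_one τ)
  have htt' : G.map τ * G⁻¹.map τ = 1 := by rw [← Matrix.map_mul, hGG', hmap1]
  have ht't : G⁻¹.map τ * G.map τ = 1 := by rw [← Matrix.map_mul, hG'G, hmap1]
  have htp : ∀ (u w : Matrix (Fin N) (Fin N) K) (n : ℕ) (x : Tn N n K),
      tp u n *ᵥ (tp w n *ᵥ x) = tp (u * w) n *ᵥ x := by
    intro u w n x
    rw [(hTP N n K u w).1, Matrix.mulVec_mulVec]
  have htp1 : ∀ (n : ℕ) (x : Tn N n K), tp (1 : Matrix (Fin N) (Fin N) K) n *ᵥ x = x := by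
    intro n x
    rw [(hTP N n K 1 1).2, Matrix.one_mulVec]
  -- the general formula
  have hform : ∀ (u u' : Matrix (Fin N) (Fin N) K), u * u' = 1 → u' * u = 1 → ∀ (n : ℕ) (x : Tn N n K),
      (∀ I, δ (x I) = 0) → (fun I => δ ((tp u n *ᵥ x) I)) =
        tp u n *ᵥ der (u' * (u.map fun x => δ x)) n x := by
    intro u u' h1 h2 n x hx
    have h3 : u * (u' * (u.map fun x => δ x)) * u' = (u.map fun x => δ x) * u' := by
      rw [← Matrix.mul_assoc u, h1, Matrix.one_mul]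
    rw [hKA K N n δ u u' h2 x hx, hDC N n K u u' (u' * (u.map fun x => δ x)) h1 h2 x, h3]
  -- step 1: the matrix `X` kills `T`
  have hX : c⁻¹ * (c.map fun x => δ x) ∈ Submodule.span K (cst K '' Kil T) := by
    refine hBX K N T _ fun n t ht => ?_
    obtain ⟨s, hs, hst⟩ := hb n t ht
    have h1 := hrel n t ht s hs hst
    have hrat : ∀ (r : Tn N n ℚ) (I : Fin n → Fin N), δ (up K r I) = 0 := by
      intro r I
      have h2 : (up K r I : K) = algebraMap ℚ K (r I) := by simp [up]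
      rw [h2]
      exact δ.map_algebraMap (r I)
    have h2 := hform c c⁻¹ hcc' hc'c n (up K t) (hrat t)
    have h3 : (fun I => δ ((tp c n *ᵥ up K t) I)) = 0 := by
      rw [h1]
      funext I
      exact hrat s I
    rw [h3] at h2
    have h4 : tp c⁻¹ n *ᵥ (tp c n *ᵥ der (c⁻¹ * (c.map fun x => δ x)) n (up K t)) = 0 := by
      rw [← h2, Matrix.mulVec_zero]
    rw [htp, hc'c, htp1] at h4
    exact h4
  -- step 2: the action of the span
  have hspan : ∀ X ∈ Submodule.span K (cst K '' Kil T), ∃ γ : K, (W0 (dz D G) a → γ = 0) ∧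
      der (G⁻¹.map τ * X * G.map τ) m (tu τ y) = γ • tu τ y := by
    intro X hX
    induction hX using Submodule.span_induction with
    | mem X hX =>
      obtain ⟨Z, hZ, rfl⟩ := hX
      obtain ⟨Y, hY, z, hz, rfl⟩ := hT Z hZ
      obtain ⟨d, hd⟩ := hdia z hz
      have e1 : cst K (Y + z) = (cst QB Y).map τ + (cst QB z).map τ := by
        rw [KC_cst, KC_cst]
        ext i j
        simp [cst]
      have e2 : G⁻¹.map τ * cst K (Y + z) * G.map τ =
          (G⁻¹ * cst QB Y * G).map τ + (diagonal d).map τ := by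
        have e3 : G⁻¹ * cst QB z * G = diagonal d := by
          rw [Matrix.mul_assoc, hd, ← Matrix.mul_assoc, hG'G, Matrix.one_mul]
        rw [← e3, e1, Matrix.mul_add, Matrix.add_mul, ← Matrix.map_mul, ← Matrix.map_mul, ← Matrix.map_mul,
          ← Matrix.map_mul]
      refine ⟨τ (∑ i, (a i : QB) * d i), fun h => by rw [h d ⟨z, hz, hd⟩, map_zero], ?_⟩
      rw [e2, (hDL N m K _ _ 0 (tu τ y) 0).1, KC_tu, KC_tu, hGI Y hY, hDD QB N m d y]
      funext I
      have e4 : (∑ k, d (I k)) * y I = (∑ i, (a i : QB) * d i) * y I := by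
        by_cases hy : y I = 0
        · rw [hy, mul_zero, mul_zero]
        · rw [hW I hy d ⟨z, hz, hd⟩]
      show τ ((0 : Tn N m QB) I) + τ ((∑ k, d (I k)) * y I) = τ (∑ i, (a i : QB) * d i) * τ (y I)
      rw [e4, map_mul, Pi.zero_apply, map_zero, zero_add]
    | zero => exact ⟨0, fun _ => rfl, by rw [Matrix.mul_zero, Matrix.zero_mul, KC_der0, zero_smul]⟩
    | add X Y _ _ hx hy =>
      obtain ⟨g1, h1, h2⟩ := hx
      obtain ⟨g2, h3, h4⟩ := hy
      refine ⟨g1 + g2, fun h => by rw [h1 h, h3 h, add_zero], ?_⟩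
      rw [Matrix.mul_add, Matrix.add_mul, (hDL N m K _ _ 0 (tu τ y) 0).1, h2, h4, add_smul]
    | smul r X _ hx =>
      obtain ⟨g1, h1, h2⟩ := hx
      refine ⟨r * g1, fun h => by rw [h1 h, mul_zero], ?_⟩
      rw [Matrix.mul_smul, Matrix.smul_mul, (hDL N m K _ 0 0 (tu τ y) r).2.1, h2, smul_smul]
  obtain ⟨γ, hγ0, hγ⟩ := hspan _ hX
  refine ⟨γ, hγ0, ?_⟩
  -- step 3: the matrix `c G`
  have hδτ : ∀ x : QB, δ (τ x) = 0 := fun x => (hKB K τ (τ x)).2 ⟨x, rfl⟩ δ
  have i1 : (c * G.map τ) * (G⁻¹.map τ * c⁻¹) = 1 := by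
    rw [Matrix.mul_assoc, ← Matrix.mul_assoc (G.map τ), htt', Matrix.one_mul, hcc']
  have i2 : (G⁻¹.map τ * c⁻¹) * (c * G.map τ) = 1 := by
    rw [Matrix.mul_assoc, ← Matrix.mul_assoc c⁻¹, hc'c, Matrix.one_mul, ht't]
  have h5 := hform (c * G.map τ) (G⁻¹.map τ * c⁻¹) i1 i2 m (tu τ y) (fun I => hδτ (y I))
  have h6 : (G⁻¹.map τ * c⁻¹) * ((c * G.map τ).map fun x => δ x) =
      G⁻¹.map τ * (c⁻¹ * (c.map fun x => δ x)) * G.map τ := by
    rw [KC_map δ c (G.map τ) (fun i j => by rw [Matrix.map_apply]; exact hδτ (G i j))]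
    simp only [Matrix.mul_assoc]
  rw [h6, hγ, Matrix.mulVec_smul] at h5
  intro I
  exact congrFun h5 I

end Pool.Agent.FPZ
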